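import Pool.Agent.Helper24_LIR.HSE

/-!
# PAE (squad LIR): the pairing with the test multiplier on the torus
-/

set_option autoImplicit false

open scoped BigOperators ComplexConjugate

noncomputable section

namespace Pool.Agent.LE.IR.H46

open Pool.Agent.Anderson hiding box mem_box card_box
open Pool.Agent.Loc Pool.Agent.Mob Pool.Agent.Helper54.Bal
  Pool.Agent.Helper96.EXP Pool.Agent.BED
open Pool.Agent.LE.MN Pool.Agent.LE.CL Pool.Agent.LE.IR Pool.Agent.LE.IR.H24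

variable {d M : ℕ} [NeZero M]

/-! ### 1. Sums -/

theorem norm_pm_le {z : Tor d M → ℂ} {F : Tor d M → ℝ} (h : ∀ p, ‖z p‖ ≤ F p) :
    ‖(∑ p, z p) / (M : ℂ) ^ d‖ ≤ pm F := by
  unfold pm
  rw [norm_div, norm_pow, Complex.norm_natCast]
  exact div_le_div_of_nonneg_right
    ((norm_sum_le _ _).trans (Finset.sum_le_sum fun p _ => h p)) (Mpos d M).le

theorem ofReal_pm (F : Tor d M → ℝ) : ((pm F : ℝ) : ℂ) = (∑ p, ((F p : ℝ) : ℂ)) / (M : ℂ) ^ d := by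
  unfold pm
  push_cast
  rfl

theorem cs_le {ι : Type} (s : Finset ι) (f g : ι → ℂ) {N b : ℝ} (hN : 0 ≤ N) (hb : 0 ≤ b)
    (hf : ∑ k ∈ s, ‖f k‖ ^ 2 ≤ N * b ^ 2) (hg : ∑ k ∈ s, ‖g k‖ ^ 2 ≤ N) :
    ∑ k ∈ s, ‖f k‖ * ‖g k‖ ≤ N * b := by
  have h1 := Finset.sum_mul_sq_le_sq_mul_sq s (fun k => ‖f k‖) (fun k => ‖g k‖)
  have h2 : (∑ k ∈ s, ‖f k‖ ^ 2) * ∑ k ∈ s, ‖g k‖ ^ 2 ≤ (N * b ^ 2) * N :=
    mul_le_mul hf hg (Finset.sum_nonneg fun k _ => by positivity) (by positivity)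
  have h3 : (∑ k ∈ s, ‖f k‖ * ‖g k‖) ^ 2 ≤ (N * b) ^ 2 := by
    refine (h1.trans h2).trans (le_of_eq ?_)
    ring
  exact (le_abs_self _).trans (abs_le_of_sq_le_sq h3 (by positivity))

theorem ft_vx (C : Finset (Tor d M)) (v : C → ℂ) (p : Tor d M) :
    ft (vx C v) p = ∑ x : C, v x * conj (ec p x) := by
  unfold ft
  rw [← Finset.sum_subset (Finset.subset_univ C)]
  · rw [← Finset.sum_coe_sort C (fun y => conj (ec p y) * vx C v y)]
    refine Finset.sum_congr rfl fun x _ => ?_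
    have : vx C v x = v x := by
      unfold vx
      rw [dif_pos x.2]
    rw [this, mul_comm]
  · intro y _ hy
    have : vx C v y = 0 := by
      unfold vx
      rw [dif_neg hy]
    rw [this, mul_zero]

theorem bes_u {C : Finset (Tor d M)} {v : C → C → ℂ} (hv : BesT C v) (u : C → ℂ) {b : ℝ}
    (hu : ∀ x, ‖u x‖ ≤ b) : ∑ k, ‖∑ x : C, v k x * u x‖ ^ 2 ≤ C.card * b ^ 2 := by
  have h := hv u
  have h1 : ∀ k, ∑ x : C, u x * v k x = ∑ x : C, v k x * u x := fun k =>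
    Finset.sum_congr rfl fun x _ => mul_comm _ _
  simp only [h1] at h
  refine h.trans ?_
  calc ∑ x : C, ‖u x‖ ^ 2 ≤ ∑ _x : C, b ^ 2 :=
        Finset.sum_le_sum fun x _ => pow_le_pow_left₀ (norm_nonneg _) (hu x) 2
    _ = C.card * b ^ 2 := by
        rw [Finset.sum_const, Finset.card_univ, Fintype.card_coe, nsmul_eq_mul]

theorem bes_vx (ftb : FtbStmt) {C : Finset (Tor d M)} {v : C → C → ℂ} (hv : BesT C v)
    (p : Tor d M) : ∑ k, ‖ft (vx C (v k)) p‖ ^ 2 ≤ C.card := by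
  have h := bes_u hv (fun x => conj (ec p x)) (b := 1) (fun x => by
    rw [Complex.norm_conj, (ftb d M).1])
  simp only [← ft_vx] at h
  simpa using h

theorem bes_df {C : Finset (Tor d M)} {v : C → C → ℂ} (hv : BesT C v)
    {S : Tor d M → Tor d M → ℂ} {β : ℝ} (p : Tor d M)
    (hβ : ∀ x ∈ C, ‖ft (S x) p - conj (ec p x)‖ ≤ β) :
    ∑ k, ‖ft (lnt C S (v k)) p - ft (vx C (v k)) p‖ ^ 2 ≤ C.card * β ^ 2 := by
  have h := bes_u hv (fun x => ft (S x) p - conj (ec p x)) (b := β) (fun x => hβ x x.2)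
  have h1 : ∀ k, ∑ x : C, v k x * (ft (S x) p - conj (ec p x)) =
      ft (lnt C S (v k)) p - ft (vx C (v k)) p := by
    intro k
    rw [ft_lnt, ft_vx, ← Finset.sum_sub_distrib]
    exact Finset.sum_congr rfl fun x _ => by ring
  simp only [h1] at h
  exact h

/-! ### 2. The pairing in terms of the kernel -/

theorem pair_ker (ftb : FtbStmt) {C : Finset (Tor d M)} (P : Tor d M → ℝ) (g : Tor d M → ℂ)
    (v : C → ℂ) :
    (∑ p, ((P p : ℝ) : ℂ) * (ft g p * conj (ft (vx C v) p))) / (M : ℂ) ^ d =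
      ∑ y, g y * ∑ x : C, conj (v x) *
        ((∑ p, ((P p : ℝ) : ℂ) * ec p ((x : Tor d M) - y)) / (M : ℂ) ^ d) := by
  have h1 : ∀ p, ((P p : ℝ) : ℂ) * (ft g p * conj (ft (vx C v) p)) =
      ∑ y, ∑ x : C, (g y * conj (v x)) * (((P p : ℝ) : ℂ) * ec p ((x : Tor d M) - y)) := by
    intro p
    rw [ft_vx]
    unfold ft
    rw [map_sum, Finset.sum_mul_sum, Finset.mul_sum]
    refine Finset.sum_congr rfl fun y _ => ?_
    rw [Finset.mul_sum]
    refine Finset.sum_congr rfl fun x _ => ?_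
    rw [map_mul, Complex.conj_conj, sub_eq_add_neg, (ftb d M).2.1,
      ((ftb d M).2.2.2.1 p y).2]
    ring
  simp only [h1]
  rw [Finset.sum_comm, Finset.sum_div]
  refine Finset.sum_congr rfl fun y _ => ?_
  rw [Finset.sum_comm, Finset.sum_div, Finset.mul_sum]
  refine Finset.sum_congr rfl fun x _ => ?_
  rw [← Finset.mul_sum]
  ring

theorem tds_sub (x y : Tor d M) : tds 0 (x - y) = tds y x := by
  unfold tds
  simp

/-- the upper bound for the pairing -/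
theorem pair_le (ftb : FtbStmt) {C C' : Finset (Tor d M)} (hC : C ⊆ C') {v : C → C → ℂ}
    (hv : BesT C v) {P : Tor d M → ℝ} {Kq : ℝ} {Rb : ℕ}
    (hK : ∀ y : Tor d M, tds 0 y ≤ Rb →
      ‖(∑ p, ((P p : ℝ) : ℂ) * ec p y) / (M : ℂ) ^ d‖ ≤ Kq)
    (hR : ∀ x ∈ C', ∀ y ∈ C', tds x y ≤ Rb) (g : C → Tor d M → ℂ)
    (hg : ∀ k y, y ∉ C' → g k y = 0) {t : ℝ} (ht : 0 < t) :
    ∑ k : C, ‖(∑ p, ((P p : ℝ) : ℂ) * (ft (g k) p * conj (ft (vx C (v k)) p))) / (M : ℂ) ^ d‖ ≤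
      t / 2 * ∑ k : C, ∑ y, ‖g k y‖ ^ 2 + 1 / (2 * t) * (C'.card * (C.card * Kq ^ 2)) := by
  set h : C → Tor d M → ℂ := fun k y =>
    ∑ x : C, conj (v k x) * ((∑ p, ((P p : ℝ) : ℂ) * ec p ((x : Tor d M) - y)) / (M : ℂ) ^ d)
    with hh
  have h1 : ∀ k : C,
      ‖(∑ p, ((P p : ℝ) : ℂ) * (ft (g k) p * conj (ft (vx C (v k)) p))) / (M : ℂ) ^ d‖ ≤
      t / 2 * ∑ y, ‖g k y‖ ^ 2 + 1 / (2 * t) * ∑ y ∈ C', ‖h k y‖ ^ 2 := by
    intro k
    rw [pair_ker ftb]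
    have e1 : ∑ y, g k y * h k y = ∑ y ∈ C', g k y * h k y := by
      symm
      refine Finset.sum_subset (Finset.subset_univ C') fun y _ hy => ?_
      rw [hg k y hy, zero_mul]
    have e2 : ∑ y ∈ C', ‖g k y‖ ^ 2 ≤ ∑ y, ‖g k y‖ ^ 2 :=
      Finset.sum_le_sum_of_subset_of_nonneg (Finset.subset_univ C')
        fun y _ _ => by positivity
    have e3 : ‖∑ y ∈ C', g k y * h k y‖ ≤
        t / 2 * ∑ y ∈ C', ‖g k y‖ ^ 2 + 1 / (2 * t) * ∑ y ∈ C', ‖h k y‖ ^ 2 := by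
      refine le_trans (norm_sum_le _ _) ?_
      rw [Finset.mul_sum, Finset.mul_sum, ← Finset.sum_add_distrib]
      refine Finset.sum_le_sum fun y _ => ?_
      rw [norm_mul]
      have h2 : t / 2 * ‖g k y‖ ^ 2 + 1 / (2 * t) * ‖h k y‖ ^ 2 - ‖g k y‖ * ‖h k y‖ =
          1 / (2 * t) * (t * ‖g k y‖ - ‖h k y‖) ^ 2 := by
        field_simp
        ring
      have h3 : 0 ≤ 1 / (2 * t) * (t * ‖g k y‖ - ‖h k y‖) ^ 2 := by positivity
      linarith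
    change ‖∑ y, g k y * h k y‖ ≤ _
    rw [e1]
    have e4 : t / 2 * ∑ y ∈ C', ‖g k y‖ ^ 2 ≤ t / 2 * ∑ y, ‖g k y‖ ^ 2 :=
      mul_le_mul_of_nonneg_left e2 (by positivity)
    linarith
  have h4 : ∀ y ∈ C', ∑ k : C, ‖h k y‖ ^ 2 ≤ C.card * Kq ^ 2 := by
    intro y hy
    have h5 := bes_u hv (fun x : C =>
      conj ((∑ p, ((P p : ℝ) : ℂ) * ec p ((x : Tor d M) - y)) / (M : ℂ) ^ d)) (b := Kq)
      (fun x => by
        rw [Complex.norm_conj]
        exact hK _ (by rw [tds_sub]; exact hR y hy x (hC x.2)))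
    refine le_trans (le_of_eq (Finset.sum_congr rfl fun k _ => ?_)) h5
    rw [← Complex.norm_conj]
    congr 2
    rw [hh]
    beta_reduce
    rw [map_sum]
    exact Finset.sum_congr rfl fun x _ => by rw [map_mul, Complex.conj_conj]
  refine le_trans (Finset.sum_le_sum fun k _ => h1 k) ?_
  rw [Finset.sum_add_distrib, ← Finset.mul_sum, ← Finset.mul_sum]
  have h8 : ∑ k : C, ∑ y ∈ C', ‖h k y‖ ^ 2 ≤ C'.card * (C.card * Kq ^ 2) := by
    rw [Finset.sum_comm]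
    refine le_trans (Finset.sum_le_sum fun y hy => h4 y hy) ?_
    rw [Finset.sum_const, nsmul_eq_mul]
  have h9 : 0 ≤ 1 / (2 * t) := by positivity
  have h10 := mul_le_mul_of_nonneg_left h8 h9
  linarith

/-! ### 3. The errors -/

theorem mt_le {l η : ℝ} (hη : 0 < η) (p : Tor d M) : mt l η p ≤ |ds p - l| + η := by
  unfold mt
  apply Real.sqrt_le_iff.2
  have h1 := sq_abs (ds p - l)
  have h2 := abs_nonneg (ds p - l)
  refine ⟨by positivity, ?_⟩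
  nlinarith

variable {ω : Tor d M → ℝ} {h lam w l η τ φ e0 A κ Γ β : ℝ} {C C' : Finset (Tor d M)}
  {g s S F e : Tor d M → Tor d M → ℂ}

/-- the Fourier transform of the perturbation -/
theorem one_k (ftb : FtbStmt) (hs : SysT ω h lam w l η τ φ e0 A κ Γ β C C' g s S F e)
    (hη : 0 < η) {b : ℝ} (hb : 0 < b) (q : Tor d M → ℝ) (v : C → ℂ) :
    ‖((w ^ 2 : ℝ) : ℂ) * ((∑ p, ((q p * (ds p - l) : ℝ) : ℂ) *
        (ft (lnt C g v) p * conj (ft (vx C v) p))) / (M : ℂ) ^ d) -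
        ((pm (fun p => q p * ‖ft (vx C v) p‖ ^ 2) : ℝ) : ℂ)‖ ≤
      pm (fun p => w ^ 2 * (|q p * (ds p - l)| * (‖ft (lnt C s v) p‖ * ‖ft (vx C v) p‖))) +
        pm (fun p => |q p| * (‖ft (lnt C S v) p - ft (vx C v) p‖ * ‖ft (vx C v) p‖)) +
        1 / (2 * (b * η)) * pm (fun p => ‖ft (lnt C F v) p‖ ^ 2) +
        1 / (2 * (b * η)) * pm (fun p => ‖ft (lnt C e v) p‖ ^ 2) +
        1 / (2 * b) * pm (fun p => (mt l η p)⁻¹ *
          ‖ft (fun x => aop ω h lam (fun y => lnt C g v y - lnt C s v y) x -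
            fop w l (fun y => lnt C g v y - lnt C s v y) x) p‖ ^ 2) +
        pm (fun p => q p ^ 2 * (b * η + b / 2 * mt l η p) * ‖ft (vx C v) p‖ ^ 2) := by
  rw [ofReal_pm, ← mul_div_assoc, ← sub_div, Finset.mul_sum, ← Finset.sum_sub_distrib]
  rw [← pm_mul, ← pm_mul, ← pm_mul, ← pm_add, ← pm_add, ← pm_add, ← pm_add, ← pm_add]
  refine norm_pm_le fun p => ?_
  have heq := hat_eq ftb hs v p
  rw [ft_sub (lnt C g v) (lnt C s v)] at heq
  have hm := mt_pos (l := l) hη p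
  have hVV : ((‖ft (vx C v) p‖ ^ 2 : ℝ) : ℂ) = ft (vx C v) p * conj (ft (vx C v) p) := by
    rw [Complex.mul_conj, Complex.normSq_eq_norm_sq]
  set W := ft (fun x => aop ω h lam (fun y => lnt C g v y - lnt C s v y) x -
            fop w l (fun y => lnt C g v y - lnt C s v y) x) p with hW
  set G := ft (lnt C g v) p with hG
  set s' := ft (lnt C s v) p with hs'
  set S' := ft (lnt C S v) p with hS'
  set F' := ft (lnt C F v) p with hF'
  set e' := ft (lnt C e v) p with he'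
  set V := ft (vx C v) p with hV
  have hid : ((w ^ 2 : ℝ) : ℂ) * (((q p * (ds p - l) : ℝ) : ℂ) * (G * conj V)) -
      ((q p * ‖V‖ ^ 2 : ℝ) : ℂ) =
      ((w ^ 2 * (q p * (ds p - l)) : ℝ) : ℂ) * (s' * conj V) +
        (q p : ℂ) * ((S' - V) * conj V) + (q p : ℂ) * ((F' + e' - W) * conj V) := by
    rw [Complex.ofReal_mul (q p) (‖V‖ ^ 2), hVV]
    push_cast at heq ⊢
    linear_combination (q p : ℂ) * conj V * heq
  rw [hid]
  have n1 : ‖((w ^ 2 * (q p * (ds p - l)) : ℝ) : ℂ) * (s' * conj V)‖ =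
      w ^ 2 * (|q p * (ds p - l)| * (‖s'‖ * ‖V‖)) := by
    rw [norm_mul, norm_mul, Complex.norm_conj, Complex.norm_real, Real.norm_eq_abs, abs_mul,
      abs_of_nonneg (sq_nonneg w)]
    ring
  have n2 : ‖(q p : ℂ) * ((S' - V) * conj V)‖ = |q p| * (‖S' - V‖ * ‖V‖) := by
    rw [norm_mul, norm_mul, Complex.norm_conj, Complex.norm_real, Real.norm_eq_abs]
  have n3 : ‖(q p : ℂ) * ((F' + e' - W) * conj V)‖ ≤ |q p| * ((‖F'‖ + ‖e'‖ + ‖W‖) * ‖V‖) := by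
    rw [norm_mul, norm_mul, Complex.norm_conj, Complex.norm_real, Real.norm_eq_abs]
    have : ‖F' + e' - W‖ ≤ ‖F'‖ + ‖e'‖ + ‖W‖ :=
      (norm_sub_le _ _).trans (add_le_add_left (norm_add_le _ _) _)
    gcongr
  have n4 : ‖((w ^ 2 * (q p * (ds p - l)) : ℝ) : ℂ) * (s' * conj V) +
      (q p : ℂ) * ((S' - V) * conj V) + (q p : ℂ) * ((F' + e' - W) * conj V)‖ ≤
      ‖((w ^ 2 * (q p * (ds p - l)) : ℝ) : ℂ) * (s' * conj V)‖ +
        ‖(q p : ℂ) * ((S' - V) * conj V)‖ + ‖(q p : ℂ) * ((F' + e' - W) * conj V)‖ :=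
    (norm_add_le _ _).trans (add_le_add_left (norm_add_le _ _) _)
  rw [n1, n2] at n4
  have hqq : q p ^ 2 = |q p| ^ 2 := (sq_abs _).symm
  rw [hqq]
  obtain ⟨a, ha⟩ : ∃ a, a = ‖F'‖ := ⟨_, rfl⟩
  obtain ⟨c, hc⟩ : ∃ c, c = ‖e'‖ := ⟨_, rfl⟩
  obtain ⟨f, hf⟩ : ∃ f, f = ‖W‖ := ⟨_, rfl⟩
  obtain ⟨u, hu⟩ : ∃ u, u = ‖V‖ := ⟨_, rfl⟩
  obtain ⟨m, hmd⟩ : ∃ m, m = mt l η p := ⟨_, rfl⟩
  obtain ⟨Q, hQ⟩ : ∃ Q, Q = |q p| := ⟨_, rfl⟩
  rw [← ha, ← hc, ← hf, ← hu, ← hQ] at n3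
  rw [← hu, ← hQ] at n4
  rw [← ha, ← hc, ← hf, ← hu, ← hQ, ← hmd]
  rw [← hmd] at hm
  have e1 : 0 ≤ 1 / (2 * (b * η)) * (a - (b * η) * (Q * u)) ^ 2 := by positivity
  have e2 : 0 ≤ 1 / (2 * (b * η)) * (c - (b * η) * (Q * u)) ^ 2 := by positivity
  have e3 : 0 ≤ 1 / (2 * b) * (m⁻¹ * (f - b * m * (Q * u)) ^ 2) := by positivity
  have e1' : 1 / (2 * (b * η)) * (a - (b * η) * (Q * u)) ^ 2 =
      1 / (2 * (b * η)) * a ^ 2 - Q * a * u + (b * η) / 2 * (Q ^ 2 * u ^ 2) := by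
    field_simp
    ring
  have e2' : 1 / (2 * (b * η)) * (c - (b * η) * (Q * u)) ^ 2 =
      1 / (2 * (b * η)) * c ^ 2 - Q * c * u + (b * η) / 2 * (Q ^ 2 * u ^ 2) := by
    field_simp
    ring
  have e3' : 1 / (2 * b) * (m⁻¹ * (f - b * m * (Q * u)) ^ 2) =
      1 / (2 * b) * (m⁻¹ * f ^ 2) - Q * f * u + b / 2 * m * (Q ^ 2 * u ^ 2) := by
    field_simp
    ring
  rw [e1'] at e1
  rw [e2'] at e2
  rw [e3'] at e3
  have e4 : Q ^ 2 * (b * η + b / 2 * m) * u ^ 2 = (b * η) / 2 * (Q ^ 2 * u ^ 2) +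
      (b * η) / 2 * (Q ^ 2 * u ^ 2) + b / 2 * m * (Q ^ 2 * u ^ 2) := by ring
  rw [e4]
  have e5 : Q * ((a + c + f) * u) = Q * a * u + Q * c * u + Q * f * u := by ring
  rw [e5] at n3
  refine n4.trans ?_
  linarith

theorem w_sq2 (hw : |w - 1| ≤ 1 / 10) : w ^ 2 ≤ 2 := by
  have := abs_le.1 hw
  nlinarith [this.1, this.2]

/-- the sum of the errors -/
theorem all_k (ftb : FtbStmt) (hs : SysT ω h lam w l η τ φ e0 A κ Γ β C C' g s S F e)
    (hw : |w - 1| ≤ 1 / 10) (hη : 0 < η) (hκ : 0 < κ) (hA : 0 ≤ A) (hβ : 0 ≤ β) {b : ℝ}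
    (hb : 0 < b) {q : Tor d M → ℝ} (hq : ∀ p, q p ≠ 0 → ds p ≤ 4 * l) {v : C → C → ℂ}
    (hv : BesT C v) {Q1 Q2 QX1 QX2 a2 Y2 : ℝ}
    (h1 : pm (fun p => |q p|) ≤ Q1) (h2 : pm (fun p => q p ^ 2) ≤ Q2)
    (hX2 : pm (fun p => q p ^ 2 * |ds p - l|) ≤ QX2)
    (hX1 : pm (fun p => |q p * (ds p - l)|) ≤ QX1)
    (ha : ∑ k, ∑ y, ‖lnt C g (v k) y‖ ^ 2 ≤ a2)
    (hY : ∑ k, pm (fun p => mt l η p *
      ‖ft (fun y => lnt C g (v k) y - lnt C s (v k) y) p‖ ^ 2) ≤ Y2) :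
    ∑ k, ‖((w ^ 2 : ℝ) : ℂ) * ((∑ p, ((q p * (ds p - l) : ℝ) : ℂ) *
        (ft (lnt C g (v k)) p * conj (ft (vx C (v k)) p))) / (M : ℂ) ^ d) -
        ((pm (fun p => q p * ‖ft (vx C (v k)) p‖ ^ 2) : ℝ) : ℂ)‖ ≤
      2 * (C.card * (A / κ)) * QX1 + C.card * β * Q1 + 1 / (2 * (b * η)) * (φ ^ 2 * a2) +
        1 / (2 * (b * η)) * (C.card * e0) + 1 / (2 * b) * (τ ^ 2 * Y2) +
        C.card * (b * η * Q2 + b / 2 * (QX2 + η * Q2)) := by
  refine le_trans (Finset.sum_le_sum fun k _ => one_k ftb hs hη hb q (v k)) ?_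
  rw [Finset.sum_add_distrib, Finset.sum_add_distrib, Finset.sum_add_distrib,
    Finset.sum_add_distrib, Finset.sum_add_distrib, ← Finset.mul_sum,
    ← Finset.mul_sum, ← Finset.mul_sum]
  have i1 : 0 ≤ 1 / (2 * (b * η)) := by positivity
  have i2 : 0 ≤ 1 / (2 * b) := by positivity
  have hN : (0 : ℝ) ≤ C.card := Nat.cast_nonneg _
  have hAκ : 0 ≤ A / κ := by positivity
  have hw2 := w_sq2 hw
  -- s
  have t1 : ∑ k, pm (fun p => w ^ 2 * (|q p * (ds p - l)| *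
      (‖ft (lnt C s (v k)) p‖ * ‖ft (vx C (v k)) p‖))) ≤ 2 * (C.card * (A / κ)) * QX1 := by
    rw [← pm_sum]
    have e1 : pm (fun p => ∑ k : C, w ^ 2 * (|q p * (ds p - l)| *
        (‖ft (lnt C s (v k)) p‖ * ‖ft (vx C (v k)) p‖))) ≤
        pm (fun p => 2 * (C.card * (A / κ)) * |q p * (ds p - l)|) := by
      refine pm_le fun p => ?_
      rw [← Finset.mul_sum, ← Finset.mul_sum]
      have e2 := cs_le Finset.univ (fun k : C => ft (lnt C s (v k)) p)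
        (fun k : C => ft (vx C (v k)) p) hN hAκ (bes_ft hv p fun x hx => hs.hs1 x hx p)
        (bes_vx ftb hv p)
      have e3 : |q p * (ds p - l)| * ∑ k : C, (‖ft (lnt C s (v k)) p‖ * ‖ft (vx C (v k)) p‖) ≤
          |q p * (ds p - l)| * (C.card * (A / κ)) := mul_le_mul_of_nonneg_left e2 (abs_nonneg _)
      have e4 : 0 ≤ |q p * (ds p - l)| * (C.card * (A / κ)) := by positivity
      calc w ^ 2 * (|q p * (ds p - l)| *
            ∑ k : C, (‖ft (lnt C s (v k)) p‖ * ‖ft (vx C (v k)) p‖)) ≤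
          w ^ 2 * (|q p * (ds p - l)| * (C.card * (A / κ))) :=
            mul_le_mul_of_nonneg_left e3 (sq_nonneg w)
        _ ≤ 2 * (|q p * (ds p - l)| * (C.card * (A / κ))) := mul_le_mul_of_nonneg_right hw2 e4
        _ = _ := by ring
    refine e1.trans ?_
    rw [pm_mul]
    exact mul_le_mul_of_nonneg_left hX1 (by positivity)
  -- S
  have t2 : ∑ k, pm (fun p => |q p| * (‖ft (lnt C S (v k)) p - ft (vx C (v k)) p‖ *
      ‖ft (vx C (v k)) p‖)) ≤ C.card * β * Q1 := by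
    rw [← pm_sum]
    have e1 : pm (fun p => ∑ k : C, |q p| * (‖ft (lnt C S (v k)) p - ft (vx C (v k)) p‖ *
        ‖ft (vx C (v k)) p‖)) ≤ pm (fun p => C.card * β * |q p|) := by
      refine pm_le fun p => ?_
      rw [← Finset.mul_sum]
      by_cases hp : q p = 0
      · rw [hp, abs_zero, zero_mul, mul_zero]
      · have e2 := cs_le Finset.univ (fun k : C => ft (lnt C S (v k)) p - ft (vx C (v k)) p)
          (fun k : C => ft (vx C (v k)) p) hN hβ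
          (bes_df hv p fun x hx => hs.hβ x hx p (hq p hp)) (bes_vx ftb hv p)
        rw [mul_comm]
        exact mul_le_mul_of_nonneg_right e2 (abs_nonneg _)
    refine e1.trans ?_
    rw [pm_mul]
    exact mul_le_mul_of_nonneg_left h1 (by positivity)
  -- F
  have t3 : ∑ k, pm (fun p => ‖ft (lnt C F (v k)) p‖ ^ 2) ≤ φ ^ 2 * a2 := by
    simp only [← (ftb d M).2.2.2.2.2.1]
    refine le_trans (Finset.sum_le_sum fun k _ => hs.hF (v k)) ?_
    rw [← Finset.mul_sum]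
    exact mul_le_mul_of_nonneg_left ha (sq_nonneg _)
  -- e
  have t4 : ∑ k, pm (fun p => ‖ft (lnt C e (v k)) p‖ ^ 2) ≤ C.card * e0 := by
    simp only [← (ftb d M).2.2.2.2.2.1]
    exact bes_sum hv hs.he
  -- W
  have t5 : ∑ k, pm (fun p => (mt l η p)⁻¹ *
      ‖ft (fun x => aop ω h lam (fun y => lnt C g (v k) y - lnt C s (v k) y) x -
        fop w l (fun y => lnt C g (v k) y - lnt C s (v k) y) x) p‖ ^ 2) ≤ τ ^ 2 * Y2 := by
    refine le_trans (Finset.sum_le_sum fun k _ => hs.hW _) ?_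
    rw [← Finset.mul_sum]
    exact mul_le_mul_of_nonneg_left hY (sq_nonneg _)
  -- the rest
  have t6 : ∑ k, pm (fun p => q p ^ 2 * (b * η + b / 2 * mt l η p) *
      ‖ft (vx C (v k)) p‖ ^ 2) ≤ C.card * (b * η * Q2 + b / 2 * (QX2 + η * Q2)) := by
    rw [← pm_sum]
    have e1 : pm (fun p => ∑ k : C, q p ^ 2 * (b * η + b / 2 * mt l η p) *
        ‖ft (vx C (v k)) p‖ ^ 2) ≤
        pm (fun p => (C.card * (b * η + b / 2 * η)) * q p ^ 2 +
          (C.card * (b / 2)) * (q p ^ 2 * |ds p - l|)) := by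
      refine pm_le fun p => ?_
      rw [← Finset.mul_sum]
      have e2 := bes_vx ftb hv p
      have e3 := mt_le (l := l) hη p
      have e4 := mt_pos (l := l) hη p
      have e5 : q p ^ 2 * (b * η + b / 2 * mt l η p) * ∑ k : C, ‖ft (vx C (v k)) p‖ ^ 2 ≤
          q p ^ 2 * (b * η + b / 2 * mt l η p) * C.card :=
        mul_le_mul_of_nonneg_left e2 (by positivity)
      have e6 : q p ^ 2 * (b * η + b / 2 * mt l η p) * (C.card : ℝ) ≤
          q p ^ 2 * (b * η + b / 2 * (|ds p - l| + η)) * C.card := by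
        apply mul_le_mul_of_nonneg_right _ hN
        apply mul_le_mul_of_nonneg_left _ (sq_nonneg _)
        have := mul_le_mul_of_nonneg_left e3 (by positivity : 0 ≤ b / 2)
        linarith
      refine e5.trans (e6.trans (le_of_eq ?_))
      ring
    refine e1.trans ?_
    rw [pm_add, pm_mul, pm_mul]
    have k1 := mul_le_mul_of_nonneg_left h2
      (by positivity : 0 ≤ (C.card : ℝ) * (b * η + b / 2 * η))
    have k2 := mul_le_mul_of_nonneg_left hX2 (by positivity : 0 ≤ (C.card : ℝ) * (b / 2))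
    refine (add_le_add k1 k2).trans (le_of_eq ?_)
    ring
  exact add_le_add (add_le_add (add_le_add (add_le_add (add_le_add t1 t2)
    (mul_le_mul_of_nonneg_left t3 i1)) (mul_le_mul_of_nonneg_left t4 i1))
    (mul_le_mul_of_nonneg_left t5 i2)) t6

/-! ### 4. The theorem -/

/-- the numbers for the errors -/
theorem num_err {A C₂ c₁ c b η T φ e0 τ κ β D₀ b₀ N K : ℝ} (hA : 1 ≤ A) (hC₂ : 1 ≤ C₂)
    (hc₁ : 0 < c₁) (hc₁A : c₁ ≤ 1 / A) (hc : 0 < c) (hc1 : c ≤ 1) (hb0 : 0 < b) (hb1 : b ≤ 1)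
    (hbb : b ^ 2 = c) (hη : 0 < η) (hη1 : η ≤ 1) (hκ : 0 < κ)
    (hηκ : η * (1 + Real.log (1 / η)) ≤ c * κ) (hφ : 0 ≤ φ) (hφc : φ ≤ c * η)
    (he : e0 ≤ c * η * D₀) (hτ : τ ^ 2 * b₀ ≤ c * D₀) (hβc : β ≤ c) (hD : 0 < D₀)
    (hN : 0 < N) (hT1 : c₁ / η ≤ T) (hT2 : T ≤ A * (c₁ / η)) (hT : 1 ≤ T)
    (hK : K = 2 * A ^ 2 / c₁ + 3 * A + C₂ + 1 / 2) (hbK : K * b ≤ 1 / (4 * A)) :
    2 * (N * (A / κ)) * (A * D₀ * (1 + Real.log T) / T) + N * β * (A * D₀) +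
        1 / (2 * (b * η)) * (φ ^ 2 * (C₂ * N * D₀ / η)) + 1 / (2 * (b * η)) * (N * e0) +
        1 / (2 * b) * (τ ^ 2 * (C₂ * N * b₀)) +
        N * (b * η * (A * T * D₀) + b / 2 * (A * D₀ + η * (A * T * D₀))) ≤
      D₀ / (4 * A) * N := by
  have hA0 : 0 < A := by linarith
  have hC₂0 : 0 < C₂ := by linarith
  have hT0 : 0 < T := by linarith
  have hcb : c ≤ b := by
    rw [← hbb]
    calc b ^ 2 = b * b := by ring
      _ ≤ b * 1 := mul_le_mul_of_nonneg_left hb1 hb0.le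
      _ = b := mul_one b
  have hND : 0 < N * D₀ := by positivity
  have hAc : A * c₁ ≤ 1 := by
    calc A * c₁ ≤ A * (1 / A) := mul_le_mul_of_nonneg_left hc₁A hA0.le
      _ = 1 := by field_simp
  have hηT : η * T ≤ 1 := by
    calc η * T ≤ η * (A * (c₁ / η)) := mul_le_mul_of_nonneg_left hT2 hη.le
      _ = A * c₁ := by field_simp
      _ ≤ 1 := hAc
  have hTη : T ≤ 1 / η := by
    rw [le_div_iff₀ hη]
    linarith
  have hlog : Real.log T ≤ Real.log (1 / η) := Real.log_le_log hT0 hTη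
  have hlogT : 0 ≤ Real.log T := Real.log_nonneg hT
  have hTi : 1 / T ≤ η / c₁ := by
    rw [div_le_div_iff₀ hT0 hc₁]
    have : c₁ ≤ T * η := by rwa [div_le_iff₀ hη] at hT1
    linarith
  have hlT : (1 + Real.log T) / T ≤ b * κ / c₁ := by
    calc (1 + Real.log T) / T = (1 + Real.log T) * (1 / T) := by ring
      _ ≤ (1 + Real.log (1 / η)) * (η / c₁) :=
          mul_le_mul (by linarith) hTi (by positivity) (by linarith)
      _ = η * (1 + Real.log (1 / η)) / c₁ := by ring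
      _ ≤ c * κ / c₁ := div_le_div_of_nonneg_right hηκ hc₁.le
      _ ≤ b * κ / c₁ := by gcongr
  have b1 : 2 * (N * (A / κ)) * (A * D₀ * (1 + Real.log T) / T) ≤
      2 * A ^ 2 / c₁ * b * (N * D₀) := by
    calc 2 * (N * (A / κ)) * (A * D₀ * (1 + Real.log T) / T) =
        2 * (N * (A / κ)) * (A * D₀) * ((1 + Real.log T) / T) := by ring
      _ ≤ 2 * (N * (A / κ)) * (A * D₀) * (b * κ / c₁) :=
          mul_le_mul_of_nonneg_left hlT (by positivity)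
      _ = 2 * A ^ 2 / c₁ * b * (N * D₀) := by
          field_simp
  have b2 : N * β * (A * D₀) ≤ A * b * (N * D₀) := by
    have h1 : β ≤ b := hβc.trans hcb
    calc N * β * (A * D₀) = A * (N * D₀) * β := by ring
      _ ≤ A * (N * D₀) * b := mul_le_mul_of_nonneg_left h1 (by positivity)
      _ = A * b * (N * D₀) := by ring
  have b3 : 1 / (2 * (b * η)) * (φ ^ 2 * (C₂ * N * D₀ / η)) ≤ C₂ / 2 * b * (N * D₀) := by
    have h1 : φ ^ 2 ≤ (c * η) ^ 2 := pow_le_pow_left₀ hφ hφc 2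
    calc 1 / (2 * (b * η)) * (φ ^ 2 * (C₂ * N * D₀ / η))
        ≤ 1 / (2 * (b * η)) * ((c * η) ^ 2 * (C₂ * N * D₀ / η)) := by gcongr
      _ = C₂ / 2 * (c ^ 2 / b) * (N * D₀) := by field_simp
      _ ≤ C₂ / 2 * b * (N * D₀) := by
          have h2 : c ^ 2 / b ≤ b := by
            rw [div_le_iff₀ hb0, ← sq, hbb]
            calc c ^ 2 = c * c := by ring
              _ ≤ c * 1 := mul_le_mul_of_nonneg_left hc1 hc.le
              _ = c := mul_one c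
          gcongr
  have b4 : 1 / (2 * (b * η)) * (N * e0) ≤ 1 / 2 * b * (N * D₀) := by
    calc 1 / (2 * (b * η)) * (N * e0) ≤ 1 / (2 * (b * η)) * (N * (c * η * D₀)) := by gcongr
      _ = 1 / (2 * (b * η)) * (N * (b ^ 2 * η * D₀)) := by rw [hbb]
      _ = 1 / 2 * b * (N * D₀) := by field_simp
  have b5 : 1 / (2 * b) * (τ ^ 2 * (C₂ * N * b₀)) ≤ C₂ / 2 * b * (N * D₀) := by
    calc 1 / (2 * b) * (τ ^ 2 * (C₂ * N * b₀)) = 1 / (2 * b) * (C₂ * N * (τ ^ 2 * b₀)) := by ring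
      _ ≤ 1 / (2 * b) * (C₂ * N * (c * D₀)) := by gcongr
      _ = 1 / (2 * b) * (C₂ * N * (b ^ 2 * D₀)) := by rw [hbb]
      _ = C₂ / 2 * b * (N * D₀) := by field_simp
  have b6 : N * (b * η * (A * T * D₀) + b / 2 * (A * D₀ + η * (A * T * D₀))) ≤
      2 * A * b * (N * D₀) := by
    have h1 : N * (b * η * (A * T * D₀) + b / 2 * (A * D₀ + η * (A * T * D₀))) =
        3 / 2 * A * b * (N * D₀) * (η * T) + 1 / 2 * A * b * (N * D₀) := by ring
    rw [h1]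
    have h2 : 3 / 2 * A * b * (N * D₀) * (η * T) ≤ 3 / 2 * A * b * (N * D₀) * 1 :=
      mul_le_mul_of_nonneg_left hηT (by positivity)
    linarith
  have b7 : K * b * (N * D₀) ≤ 1 / (4 * A) * (N * D₀) := mul_le_mul_of_nonneg_right hbK hND.le
  have b8 : K * b * (N * D₀) = 2 * A ^ 2 / c₁ * b * (N * D₀) + A * b * (N * D₀) +
      C₂ / 2 * b * (N * D₀) + 1 / 2 * b * (N * D₀) + C₂ / 2 * b * (N * D₀) +
      2 * A * b * (N * D₀) := by
    rw [hK]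
    ring
  have b9 : D₀ / (4 * A) * N = 1 / (4 * A) * (N * D₀) := by ring
  rw [b9]
  linarith

/-- PAE -/
theorem pae (ftb : FtbStmt) : PaeStmt := by
  intro d A C₂ c₁ hd hA hC₂ hc₁ hc₁A
  have hA0 : 0 < A := by linarith
  have hC₂0 : 0 < C₂ := by linarith
  obtain ⟨K, hKdef⟩ : ∃ K : ℝ, K = 2 * A ^ 2 / c₁ + 3 * A + C₂ + 1 / 2 := ⟨_, rfl⟩
  have hKpos : 0 < K := by rw [hKdef]; positivity
  obtain ⟨c, hcd⟩ : ∃ c : ℝ, c = min 1 ((1 / (4 * A * K)) ^ 2) := ⟨_, rfl⟩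
  have hc : 0 < c := by rw [hcd]; positivity
  have hc1 : c ≤ 1 := by rw [hcd]; exact min_le_left _ _
  have hc2 : c ≤ (1 / (4 * A * K)) ^ 2 := by rw [hcd]; exact min_le_right _ _
  refine ⟨c, 1 / (64 * A ^ 2 * C₂), hc, by positivity, ?_⟩
  intro M Rb _ ω h lam w l η τ φ e0 κ Γ β D₀ b₀ T Kq C C' g s S F e q v hn hs hv hT1 hT2 hT hKq
    ht hRb ha hY hR
  obtain ⟨hη, hηc, hη1⟩ := hn.hη
  obtain ⟨hl, h4l, hκ1⟩ := hn.hl
  obtain ⟨hD, hDb⟩ := hn.hD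
  obtain ⟨hφ, hφη⟩ := hn.hφ
  obtain ⟨he0, he0c⟩ := hn.he
  obtain ⟨hτ, hτb⟩ := hn.hτ
  obtain ⟨hβ0, hβc⟩ := hn.hβ
  have hκ : 0 < κ := by linarith
  have hN : (0 : ℝ) < C.card := by exact_mod_cast hs.hC.1.card_pos
  have hb0 : 0 < √c := Real.sqrt_pos.2 hc
  have hb1 : √c ≤ 1 := Real.sqrt_le_one.2 hc1
  have hbK : K * √c ≤ 1 / (4 * A) := by
    have h1 : √c ≤ 1 / (4 * A * K) := Real.sqrt_le_iff.2 ⟨by positivity, hc2⟩
    calc K * √c ≤ K * (1 / (4 * A * K)) := mul_le_mul_of_nonneg_left h1 hKpos.le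
      _ = 1 / (4 * A) := by field_simp
  have herr := (all_k ftb hs hn.hw hη hκ hA0.le hβ0 hb0 ht.hsupp hv ht.hL1 ht.hL2 ht.hX2
    ht.hX1 ha hY).trans (num_err hA hC₂ hc₁ hc₁A hc hc1 hb0 hb1 (Real.sq_sqrt hc.le) hη hη1 hκ
      hηc hφ hφη he0c hτb hβc hD hN hT1 hT2 hT hKdef hbK)
  have ht0 : 0 < η / (8 * A * C₂) := by positivity
  have hg : ∀ k y, y ∉ C' → lnt C g (v k) y = 0 := by
    intro k y hy
    unfold lnt
    exact Finset.sum_eq_zero fun x _ => by rw [hs.hg x x.2 y hy, mul_zero]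
  have hup := pair_le ftb hs.hC.2.1 hv (P := fun p => q p * (ds p - l)) ht.hker hRb
    (fun k => lnt C g (v k)) hg ht0
  obtain ⟨Z, hZ⟩ : ∃ Z : C → ℂ, ∀ k, Z k = (∑ p, ((q p * (ds p - l) : ℝ) : ℂ) *
    (ft (lnt C g (v k)) p * conj (ft (vx C (v k)) p))) / (M : ℂ) ^ d := ⟨_, fun _ => rfl⟩
  obtain ⟨R, hRk⟩ : ∃ R : C → ℝ, ∀ k, R k = pm (fun p => q p * ‖ft (vx C (v k)) p‖ ^ 2) :=
    ⟨_, fun _ => rfl⟩
  simp only [← hZ, ← hRk] at herr hup hR
  have hw2 := w_sq2 hn.hw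
  have hcmp : D₀ / (2 * A) * C.card ≤ 2 * ∑ k, ‖Z k‖ + D₀ / (4 * A) * C.card := by
    refine hR.trans ?_
    have h1 : |∑ k : C, R k| = ‖∑ k : C, ((R k : ℝ) : ℂ)‖ := by
      rw [← Complex.ofReal_sum, Complex.norm_real, Real.norm_eq_abs]
    have h2 : ∑ k : C, ((R k : ℝ) : ℂ) = ∑ k : C, ((w ^ 2 : ℝ) : ℂ) * Z k -
        ∑ k : C, (((w ^ 2 : ℝ) : ℂ) * Z k - ((R k : ℝ) : ℂ)) := by
      rw [Finset.sum_sub_distrib]
      ring
    rw [h1, h2]
    refine (norm_sub_le _ _).trans ?_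
    have h3 := norm_sum_le Finset.univ (fun k : C => ((w ^ 2 : ℝ) : ℂ) * Z k - ((R k : ℝ) : ℂ))
    have h4 : ‖∑ k : C, ((w ^ 2 : ℝ) : ℂ) * Z k‖ ≤ 2 * ∑ k, ‖Z k‖ := by
      rw [Finset.mul_sum]
      refine (norm_sum_le _ _).trans (Finset.sum_le_sum fun k _ => ?_)
      rw [norm_mul, Complex.norm_real, Real.norm_eq_abs, abs_of_nonneg (sq_nonneg w)]
      exact mul_le_mul_of_nonneg_right hw2 (norm_nonneg _)
    exact add_le_add h4 (h3.trans herr)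
  have h5 : η / (8 * A * C₂) / 2 * ∑ k : C, ∑ y, ‖lnt C g (v k) y‖ ^ 2 ≤
      η / (8 * A * C₂) / 2 * (C₂ * C.card * D₀ / η) := mul_le_mul_of_nonneg_left ha (by positivity)
  have h6 : η / (8 * A * C₂) / 2 * (C₂ * C.card * D₀ / η) = D₀ / (16 * A) * C.card := by
    field_simp
    ring
  rw [h6] at h5
  have h7 : 1 / (2 * (η / (8 * A * C₂))) * ((C'.card : ℝ) * (C.card * Kq ^ 2)) =
      4 * A * C₂ / η * (C'.card * Kq ^ 2) * C.card := by
    field_simp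
    ring
  rw [h7] at hup
  have h8 : D₀ / (8 * A) * (C.card : ℝ) ≤ 8 * A * C₂ / η * (C'.card * Kq ^ 2) * C.card := by
    have e1 : D₀ / (2 * A) * (C.card : ℝ) = 4 * (D₀ / (8 * A) * C.card) := by
      field_simp
      ring
    have e2 : D₀ / (4 * A) * (C.card : ℝ) = 2 * (D₀ / (8 * A) * C.card) := by
      field_simp
      ring
    have e3 : D₀ / (16 * A) * (C.card : ℝ) = 1 / 2 * (D₀ / (8 * A) * C.card) := by
      field_simp
      ring
    have e4 : 8 * A * C₂ / η * (C'.card * Kq ^ 2) * (C.card : ℝ) =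
        2 * (4 * A * C₂ / η * (C'.card * Kq ^ 2) * C.card) := by ring
    rw [e1, e2] at hcmp
    rw [e3] at h5
    rw [e4]
    linarith
  have h9 : D₀ / (8 * A) ≤ 8 * A * C₂ / η * (C'.card * Kq ^ 2) := le_of_mul_le_mul_right h8 hN
  have h10 := mul_le_mul_of_nonneg_left h9 (by positivity : 0 ≤ η / (8 * A * C₂))
  have h11 : η / (8 * A * C₂) * (8 * A * C₂ / η * (C'.card * Kq ^ 2)) =
      (C'.card : ℝ) * Kq ^ 2 := by
    field_simp
  rw [h11] at h10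
  refine le_trans (le_of_eq ?_) h10
  field_simp
  ring

end Pool.Agent.LE.IR.H46
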